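import Mathlib

set_option autoImplicit false

/-! Project LV (helper432), piece PE: elementary symmetric functions (after PS of helper890). -/

open MvPolynomial

namespace Run7.h327.LV

universe u

theorem esymm_pow {B σ : Type*} [CommRing B] [Fintype σ] [DecidableEq σ] (x : σ → B)
    (hes : ∀ k : ℕ, 1 ≤ k → k ≤ Fintype.card σ →
      ∑ t ∈ Finset.powersetCard k (Finset.univ : Finset σ), ∏ i ∈ t, x i = 0) (i : σ) :
    x i ^ Fintype.card σ = 0 := by
  have hv := Multiset.prod_X_sub_X_eq_sum_esymm (Finset.univ.val.map x)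
  have h1 : (Finset.univ.val.map x).card = Fintype.card σ := by simp
  rw [h1, Finset.sum_range_succ'] at hv
  rw [Finset.sum_eq_zero] at hv
  · have h4 := congrArg (Polynomial.eval (x i)) hv
    rw [Multiset.map_map] at h4
    have h5 : Polynomial.eval (x i)
        (Multiset.map ((fun t => Polynomial.X - Polynomial.C t) ∘ x) Finset.univ.val).prod = 0 := by
      have : (Multiset.map ((fun t => Polynomial.X - Polynomial.C t) ∘ x) Finset.univ.val).prod =
          ∏ j, (Polynomial.X - Polynomial.C (x j)) := rfl
      rw [this, Polynomial.eval_prod]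
      exact Finset.prod_eq_zero (Finset.mem_univ i) (by simp)
    rw [h5] at h4
    simpa [Multiset.esymm] using h4.symm
  · intro k hk
    rw [Finset.mem_range] at hk
    have := hes (k + 1) (by omega) (by omega)
    rw [Finset.esymm_map_val, this]
    simp

/-- PE: the body of `S_PE` -/
theorem pe (A : Type u) [AddCommGroup A] (m : ℕ) (g : (Fin m → ℕ) → A)
    (hg : ∀ (e : Fin m → ℕ) (k : ℕ), 1 ≤ k → k ≤ m →
      ∑ S ∈ Finset.powersetCard k (Finset.univ : Finset (Fin m)),
        g (fun i => if i ∈ S then e i + 1 else e i) = 0)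
    (i₀ : Fin m) : g (fun i => if i = i₀ then m else 0) = 0 := by
  let L : MvPolynomial (Fin m) ℤ →ₗ[ℤ] A :=
    (basisMonomials (Fin m) ℤ).constr ℤ (fun k : Fin m →₀ ℕ => g k)
  have hL : ∀ (k : Fin m →₀ ℕ) (c : ℤ), L (monomial k c) = c • g k := by
    intro k c
    have h1 : (monomial k c : MvPolynomial (Fin m) ℤ) = c • basisMonomials (Fin m) ℤ k := by
      rw [coe_basisMonomials, smul_monomial, smul_eq_mul, mul_one]
    rw [h1, map_smul]
    congr 1
    exact (basisMonomials (Fin m) ℤ).constr_basis ℤ (fun k : Fin m →₀ ℕ => g k) k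
  let J : Ideal (MvPolynomial (Fin m) ℤ) :=
    { carrier := {q | ∀ r, L (r * q) = 0}
      add_mem' := by
        intro a b ha hb r
        rw [mul_add, map_add, ha r, hb r, add_zero]
      zero_mem' := by
        intro r
        rw [mul_zero, map_zero]
      smul_mem' := by
        intro c q hq r
        rw [smul_eq_mul, ← mul_assoc]
        exact hq _ }
  have memJ : ∀ q, q ∈ J ↔ ∀ r, L (r * q) = 0 := fun q => Iff.rfl
  have hes : ∀ j : ℕ, 1 ≤ j → j ≤ m →
      (∑ t ∈ Finset.powersetCard j (Finset.univ : Finset (Fin m)), ∏ i ∈ t, X i :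
        MvPolynomial (Fin m) ℤ) ∈ J := by
    intro j hj1 hj2
    rw [memJ]
    intro r
    induction r using MvPolynomial.induction_on' with
    | monomial k c =>
      have h1 : (monomial k c * ∑ t ∈ Finset.powersetCard j (Finset.univ : Finset (Fin m)),
            ∏ i ∈ t, X i : MvPolynomial (Fin m) ℤ) =
          ∑ t ∈ Finset.powersetCard j (Finset.univ : Finset (Fin m)),
            monomial (k + ∑ i ∈ t, Finsupp.single i 1) c := by
        rw [Finset.mul_sum]
        refine Finset.sum_congr rfl fun t _ => ?_
        have h2 : (∏ i ∈ t, X i : MvPolynomial (Fin m) ℤ) =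
            monomial (∑ i ∈ t, Finsupp.single i 1) 1 := by
          rw [monomial_sum_one]
          rfl
        rw [h2, monomial_mul, mul_one]
      rw [h1, map_sum]
      simp only [hL]
      have h3 : ∀ t : Finset (Fin m),
          ((k + ∑ i ∈ t, Finsupp.single i 1 : Fin m →₀ ℕ) : Fin m → ℕ) =
            fun i => if i ∈ t then k i + 1 else k i := by
        intro t
        funext i
        rw [Finsupp.add_apply, Finsupp.finsetSum_apply]
        simp only [Finsupp.single_apply]
        rw [Finset.sum_ite_eq' t i (fun _ => 1)]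
        split_ifs <;> simp
      simp only [h3]
      rw [← Finset.smul_sum, hg k j hj1 hj2, smul_zero]
    | add p q hp hq => rw [add_mul, map_add, hp, hq, add_zero]
  have key := esymm_pow (B := MvPolynomial (Fin m) ℤ ⧸ J)
    (fun i : Fin m => Ideal.Quotient.mk J (X i))
    (by
      intro k hk hk'
      rw [Fintype.card_fin] at hk'
      have h1 : ∑ t ∈ Finset.powersetCard k (Finset.univ : Finset (Fin m)),
          ∏ i ∈ t, Ideal.Quotient.mk J (X i) =
          Ideal.Quotient.mk J (∑ t ∈ Finset.powersetCard k (Finset.univ : Finset (Fin m)),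
            ∏ i ∈ t, X i) := by
        rw [map_sum]
        simp only [map_prod]
      rw [h1, Ideal.Quotient.eq_zero_iff_mem]
      exact hes k hk hk') i₀
  rw [Fintype.card_fin, ← map_pow, Ideal.Quotient.eq_zero_iff_mem, memJ] at key
  have h1 := key 1
  rw [one_mul, X_pow_eq_monomial, hL, one_smul] at h1
  rw [← h1]
  congr 1
  funext i
  rw [Finsupp.single_apply]
  simp only [eq_comm]

end Run7.h327.LV
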